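import Pool.Agent.Lib.MP_1a91b9_ntT.CF.Frob
import Pool.Agent.Lib.MP_1a91b9_ntT.CF.OrdExt

/-! # CA: Frobenius elements in cyclic extensions of prime degree

PROOF (complete):
* IsFr.unique: for all y of O_L put x = φ'⁻¹ y in both congruences: φ φ'⁻¹ y - x^n in W and
  y - x^n in W, so (φ φ'⁻¹) y - y in W for all y; `fix_of_triv` (with N := L) gives φ φ'⁻¹ = 1.
* pow_eq_pow_of: Gal(L/k) has order ℓ (IsGalois.card_aut_eq_finrank), prime, σ ≠ 1, so σ has order ℓ;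
  `pow_eq_pow_iff_modEq`, `ZMod.natCast_eq_natCast_iff`.
* exists_art: take W₀ above v (`exists_over`), a Frobenius φ at W₀ (`exists_fr`). The group has prime order so
  φ = σ ^ i (`mem_powers_of_prime_card` or similar) and is commutative. For another W above v there is g with
  g W₀ = W (Galois group transitive, see `AuxF.auxF_contra`), and g φ g⁻¹ = φ is a Frobenius at W:
  for x: φ (g⁻¹ x) - (g⁻¹ x)^n in W₀, apply g.
* art_eq: from IsFr.unique and pow_eq_pow_of at any W above v.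
* art_spl: trichotomy (OrdExt) for L/k: if v splits completely then any Frobenius at W is trivial
  modulo W: x^(nrm v) - x in W because the residue field at W has nrm v elements; so by unique with
  φ' = 1 we get σ^i = 1. Conversely if σ ^ i = 1 then `fr_fix` (N := L, φ = 1, n = nrm v, f = 1) gives
  residue degree 1, and not Ram, so Spl by trichotomy.
* fr_pow_restrict: let W' = W.under (O_L), τ' = restriction of τ to L (`AlgEquiv.restrictNormal`). For all x in O_L: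
  τ' x - x^(nrm v ^ f) in W', and (σ^i)^f x - x^(nrm v ^ f) in W' (iterate IsFr: σ^i maps W' to itself because
  σ^i x = x^n mod W'; induction on f). As in IsFr.unique τ' = (σ^i)^f.
-/

set_option autoImplicit false

namespace Pool.Agent.Lib.MP_1a91b9_ntT.CF

open NumberField IsDedekindDomain UniqueFactorizationMonoid Pool.Agent.Lib.MP_1a91b9_nt S4

universe u

section
variable {k L : Type u} [Field k] [NumberField k] [Field L] [NumberField L] [Algebra k L]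
  [IsGalois k L]

/-- `σ ^ i` is a Frobenius element at all the places above `v` -/
def IsArt (σ : Gal(L/k)) (v : HeightOneSpectrum (𝓞 k)) (i : ℕ) : Prop :=
  ∀ W : HeightOneSpectrum (𝓞 L), W.under (𝓞 k) = v → IsFr v W (σ ^ i)

/-- two automorphisms with the same power congruence at an unramified place are equal -/
private theorem CA_ART_unique {v : HeightOneSpectrum (𝓞 k)} {W : HeightOneSpectrum (𝓞 L)}
    {φ φ' : Gal(L/k)} {n : ℕ} (hW : W.under (𝓞 k) = v) (hr : ¬ Ram L v)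
    (h : ∀ x : 𝓞 L, φ • x - x ^ n ∈ W.asIdeal)
    (h' : ∀ x : 𝓞 L, φ' • x - x ^ n ∈ W.asIdeal) : φ = φ' := by
  subst hW
  have h1 : ∀ y : 𝓞 L, (φ * φ'⁻¹) • y - y ∈ W.asIdeal := by
    intro y
    have h2 := W.asIdeal.sub_mem (h (φ'⁻¹ • y)) (h' (φ'⁻¹ • y))
    have h3 : φ • (φ'⁻¹ • y) - (φ'⁻¹ • y) ^ n - (φ' • (φ'⁻¹ • y) - (φ'⁻¹ • y) ^ n) =
        (φ * φ'⁻¹) • y - y := by
      rw [smul_inv_smul, mul_smul]
      ring
    rwa [h3] at h2
  have h4 := fix_of_triv (k := k) (L := L) (N := L) W (φ * φ'⁻¹) hr (fun x => h1 x)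
  have h5 : φ * φ'⁻¹ = 1 := by
    apply AlgEquiv.ext
    intro x
    exact h4 x
  exact mul_inv_eq_one.mp h5

theorem IsFr.unique {v : HeightOneSpectrum (𝓞 k)} {W : HeightOneSpectrum (𝓞 L)}
    {φ φ' : Gal(L/k)} (hW : W.under (𝓞 k) = v) (hr : ¬ Ram L v) (h : IsFr v W φ)
    (h' : IsFr v W φ') : φ = φ' := CA_ART_unique hW hr h h'

variable (ℓ : ℕ) [Fact ℓ.Prime]

omit [NumberField k] [NumberField L] [Fact ℓ.Prime] in
private theorem CA_ART_card (hdeg : Module.finrank k L = ℓ) [FiniteDimensional k L] :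
    Nat.card Gal(L/k) = ℓ := by
  rw [IsGalois.card_aut_eq_finrank, hdeg]

theorem pow_eq_pow_of (hdeg : Module.finrank k L = ℓ) {σ : Gal(L/k)} (hσ : σ ≠ 1) (i j : ℕ) :
    σ ^ i = σ ^ j ↔ (i : ZMod ℓ) = j := by
  have hcard := CA_ART_card (k := k) (L := L) ℓ hdeg
  have h1 : σ ^ ℓ = 1 := by
    rw [← hcard]
    exact pow_card_eq_one'
  rw [pow_eq_pow_iff_modEq, orderOf_eq_prime h1 hσ, ZMod.natCast_eq_natCast_iff]

open scoped Pointwise in
theorem exists_art (hdeg : Module.finrank k L = ℓ) {σ : Gal(L/k)} (hσ : σ ≠ 1)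
    (v : HeightOneSpectrum (𝓞 k)) : ∃ i : ℕ, IsArt σ v i := by
  have hcard := CA_ART_card (k := k) (L := L) ℓ hdeg
  obtain ⟨W₀, hW₀⟩ := exists_over (N := L) v
  obtain ⟨φ, hφ⟩ := exists_fr (k := k) W₀
  rw [hW₀] at hφ
  have hpow : ∀ g : Gal(L/k), ∃ i : ℕ, σ ^ i = g := by
    intro g
    have h1 : g ∈ Submonoid.powers σ := mem_powers_of_prime_card hcard hσ
    exact h1
  obtain ⟨i, hi⟩ := hpow φ
  refine ⟨i, fun W hW => ?_⟩
  rw [hi]
  have h1 : W₀.asIdeal.under (𝓞 k) = W.asIdeal.under (𝓞 k) :=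
    congrArg HeightOneSpectrum.asIdeal (hW₀.trans hW.symm)
  have i1 : W₀.asIdeal.IsPrime := W₀.isPrime
  have i2 : W.asIdeal.IsPrime := W.isPrime
  have i3 : W₀.asIdeal.LiesOver (W₀.asIdeal.under (𝓞 k)) := ⟨rfl⟩
  have i4 : W.asIdeal.LiesOver (W₀.asIdeal.under (𝓞 k)) := ⟨h1⟩
  obtain ⟨g, hg⟩ := Ideal.exists_smul_eq_of_isGaloisGroup (W₀.asIdeal.under (𝓞 k)) W₀.asIdeal
    W.asIdeal Gal(L/k)
  obtain ⟨j, hj⟩ := hpow g
  have hcomm : φ * g = g * φ := by
    rw [← hi, ← hj, ← pow_add, ← pow_add, add_comm]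
  intro x
  have h2 := hφ (g⁻¹ • x)
  have h3 : g • (φ • (g⁻¹ • x) - (g⁻¹ • x) ^ nrm v) ∈ W.asIdeal := by
    rw [← hg]
    exact Ideal.smul_mem_pointwise_smul_iff.mpr h2
  have h4 : g • (φ • (g⁻¹ • x) - (g⁻¹ • x) ^ nrm v) = φ • x - x ^ nrm v := by
    rw [smul_sub, smul_pow', smul_inv_smul, ← mul_smul, ← hcomm, mul_smul, smul_inv_smul]
  rwa [h4] at h3

theorem art_eq (hdeg : Module.finrank k L = ℓ) {σ : Gal(L/k)} (hσ : σ ≠ 1)
    {v : HeightOneSpectrum (𝓞 k)} (hr : ¬ Ram L v) {i j : ℕ} (hi : IsArt σ v i)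
    (hj : IsArt σ v j) : (i : ZMod ℓ) = j := by
  obtain ⟨W, hW⟩ := exists_over (N := L) v
  rw [← pow_eq_pow_of ℓ hdeg hσ]
  exact IsFr.unique hW hr (hi W hW) (hj W hW)

omit [IsGalois k L] [NumberField k] [Algebra k L] in
private theorem CA_ART_pow_sub (W : HeightOneSpectrum (𝓞 L)) (x : 𝓞 L) :
    x ^ nrm W - x ∈ W.asIdeal := by
  classical
  have hmax : W.asIdeal.IsMaximal := W.isMaximal
  let _ : Field (𝓞 L ⧸ W.asIdeal) := Ideal.Quotient.field _
  have hfin : Finite (𝓞 L ⧸ W.asIdeal) := W.asIdeal.finiteQuotientOfFreeOfNeBot W.ne_bot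
  have := Fintype.ofFinite (𝓞 L ⧸ W.asIdeal)
  have hcard : Fintype.card (𝓞 L ⧸ W.asIdeal) = nrm W := by
    rw [nrm_eq, Ideal.absNorm_apply, Submodule.cardQuot_apply, Nat.card_eq_fintype_card]
  rw [← Ideal.Quotient.eq_zero_iff_mem, map_sub, map_pow, ← hcard, FiniteField.pow_card, sub_self]

theorem art_spl (hdeg : Module.finrank k L = ℓ) {σ : Gal(L/k)} (hσ : σ ≠ 1)
    {v : HeightOneSpectrum (𝓞 k)} (hr : ¬ Ram L v) {i : ℕ} (hi : IsArt σ v i) :
    (i : ZMod ℓ) = 0 ↔ Spl L v := by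
  obtain ⟨W, hW⟩ := exists_over (N := L) v
  have hWv : W.asIdeal.under (𝓞 k) = v.asIdeal := congrArg HeightOneSpectrum.asIdeal hW
  have key : (i : ZMod ℓ) = 0 ↔ σ ^ i = 1 := by
    have h1 := pow_eq_pow_of ℓ hdeg hσ i 0
    rw [pow_zero, Nat.cast_zero] at h1
    exact h1.symm
  rw [key]
  constructor
  · intro h
    have hfr := hi W hW
    rw [h] at hfr
    have hVW : ∀ V : HeightOneSpectrum (𝓞 L), V.asIdeal = W.asIdeal →
        V.asIdeal.inertiaDeg (𝓞 k) ∣ 1 → W.asIdeal.inertiaDeg (𝓞 k) ∣ 1 := by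
      intro V h1 h2
      rwa [h1] at h2
    have hdvd := hVW _ (by ext x; exact Iff.rfl) (fr_fix (k := k) (L := L) (N := L) W
      (1 : Gal(L/k)) (nrm v) 1 v hW (pow_one _).symm one_pos hfr (fun x => rfl))
    rcases trichotomy k L ℓ hdeg v with h1 | h1 | h1
    · exact absurd h1.1 hr
    · exfalso
      have h2 : W.asIdeal.inertiaDeg (𝓞 k) = ℓ := (h1.2.2.2 ⟨W, hWv⟩).2
      rw [h2] at hdvd
      have h3 : ℓ = 1 := Nat.dvd_one.mp hdvd
      exact (Fact.out : ℓ.Prime).one_lt.ne' h3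
    · exact h1.2.1
  · intro h
    have h1 : W.asIdeal.inertiaDeg (𝓞 k) = 1 := by
      rcases trichotomy k L ℓ hdeg v with h1 | h1 | h1
      · exact absurd h h1.2.1
      · exact absurd h h1.2.1
      · exact (h1.2.2.2 ⟨W, hWv⟩).2
    have i1 : W.asIdeal.IsPrime := W.isPrime
    have i2 : W.asIdeal.LiesOver v.asIdeal := ⟨by rw [← hW]; rfl⟩
    have h2 : nrm W = nrm v := by
      rw [nrm_eq, nrm_eq, ← Ideal.absNorm_pow_inertiaDeg v.asIdeal W.asIdeal, h1, pow_one]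
    refine IsFr.unique hW hr (hi W hW) (fun x => ?_)
    rw [one_smul, ← h2, ← neg_sub]
    exact W.asIdeal.neg_mem (CA_ART_pow_sub W x)

end

section
variable {k L N : Type u} [Field k] [NumberField k] [Field L] [NumberField L] [Field N]
  [NumberField N] [Algebra k L] [Algebra k N] [Algebra L N] [IsScalarTower k L N] [IsGalois k L]
  [IsGalois k N]

/-- an automorphism of `N` which acts on the residue field of `L` as the power `nrm v ^ f` -/
theorem fr_pow_restrict {v : HeightOneSpectrum (𝓞 k)} {W : HeightOneSpectrum (𝓞 N)}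
    (hW : W.under (𝓞 k) = v) (hr : ¬ Ram L v) {σ : Gal(L/k)} {i : ℕ} (hi : IsArt σ v i)
    (τ : Gal(N/k)) (f : ℕ)
    (hτ : ∀ x : 𝓞 L, τ • (algebraMap (𝓞 L) (𝓞 N) x) -
      (algebraMap (𝓞 L) (𝓞 N) x) ^ (nrm v ^ f) ∈ W.asIdeal) (x : L) :
    τ (algebraMap L N x) = algebraMap L N ((σ ^ (i * f)) x) := by
  obtain ⟨V, hV⟩ : ∃ V : HeightOneSpectrum (𝓞 L), V = W.under (𝓞 L) := ⟨_, rfl⟩
  have hVv : V.under (𝓞 k) = v := by
    rw [hV, ← hW]
    apply HeightOneSpectrum.ext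
    show Ideal.under (𝓞 k) (Ideal.under (𝓞 L) W.asIdeal) = Ideal.under (𝓞 k) W.asIdeal
    exact Ideal.under_under _
  have hfr := hi V hVv
  have hpow : ∀ (f : ℕ) (x : 𝓞 L), ((σ ^ i) ^ f) • x - x ^ (nrm v ^ f) ∈ V.asIdeal := by
    intro f
    induction f with
    | zero =>
      intro x
      rw [pow_zero, pow_zero, one_smul, pow_one, sub_self]
      exact V.asIdeal.zero_mem
    | succ f ih =>
      intro x
      have h1 := hfr (((σ ^ i) ^ f) • x)
      have h2 : (((σ ^ i) ^ f) • x) ^ nrm v - (x ^ (nrm v ^ f)) ^ nrm v ∈ V.asIdeal :=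
        V.asIdeal.mem_of_dvd (sub_dvd_pow_sub_pow _ _ _) (ih x)
      have h3 := V.asIdeal.add_mem h1 h2
      have h4 : (σ ^ i) • (((σ ^ i) ^ f) • x) - (((σ ^ i) ^ f) • x) ^ nrm v +
          ((((σ ^ i) ^ f) • x) ^ nrm v - (x ^ (nrm v ^ f)) ^ nrm v) =
          ((σ ^ i) ^ (f + 1)) • x - x ^ (nrm v ^ (f + 1)) := by
        rw [pow_succ' (σ ^ i), mul_smul, pow_succ (nrm v), pow_mul]
        ring
      rwa [h4] at h3
  obtain ⟨ψ, hψ⟩ : ∃ ψ : Gal(L/k), ψ = τ.restrictNormal L := ⟨_, rfl⟩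
  have hcomm : ∀ x : L, algebraMap L N (ψ x) = τ (algebraMap L N x) := by
    rw [hψ]
    exact AlgEquiv.restrictNormal_commutes τ L
  have hψ1 : ∀ x : 𝓞 L, ψ • x - x ^ (nrm v ^ f) ∈ V.asIdeal := by
    intro x
    have h2 : algebraMap (𝓞 L) (𝓞 N) (ψ • x) = τ • (algebraMap (𝓞 L) (𝓞 N) x) := by
      apply RingOfIntegers.ext
      exact hcomm (x : L)
    have h3 : algebraMap (𝓞 L) (𝓞 N) (ψ • x - x ^ (nrm v ^ f)) ∈ W.asIdeal := by
      rw [map_sub, map_pow, h2]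
      exact hτ x
    rw [hV]
    exact h3
  have h5 : ψ = (σ ^ i) ^ f := CA_ART_unique hVv hr hψ1 (hpow f)
  rw [← hcomm, h5, pow_mul]

end

end Pool.Agent.Lib.MP_1a91b9_ntT.CF
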