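import Pool.Agent.Lib.MP_1a91b9_ntT.CF.AuxF
import Pool.Agent.Lib.MP_1a91b9_ntT.CA.Art

/-! # CA: the auxiliary extension of an inert place, with a given auxiliary prime

PROOF (complete): copy the proof of `exists_aux` (CF/AuxF.lean; its private lemmas must be copied too,
with new names) with the given `q` and `a` instead of those of `exists_q`; the hypotheses `hqv`, `hnv`, `ha`
replace the properties of `q` (`auxf_not_mem` is not needed). The new last property: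
given v, f, i, iv. Let W be a place of N above v (`exists_over`), Φ a Frobenius at W over k (`exists_fr`).
`q` is not in W. τ := Φ ^ f satisfies τ x - x ^ (nrm v ^ f) in W for all x in O_N (induction on f; Φ maps
W to itself since Φ x = x^n modulo W). On L: τ = σ ^ (iv * f) by `fr_pow_restrict`; φ is a Frobenius at W₀
above v₀, so φ = σ ^ i₀ on L (`fr_pow_restrict` with f = 1), hence φ ^ i = σ ^ (i₀ * i) on L. By `pow_eq_pow_of`
(with hσ) τ and φ ^ i agree on L. On ζ: Φ ζ = ζ ^ nrm v (IsFr.zeta), so τ ζ = ζ ^ (nrm v ^ f), and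
(φ ^ i) ζ = ζ ^ (nrm v₀ ^ i); the exponents are congruent modulo q, and ζ ^ q = 1. So (φ ^ i)⁻¹ τ is trivial on L and
on ζ: τ = φ ^ i (`hdet`), which fixes E. `fr_fix` (L := E, n = nrm v ^ f) gives that the inertia degree over k
of w := W.under (O_E) divides f; w.under (O_k) = v.
-/

set_option autoImplicit false

namespace Pool.Agent.Lib.MP_1a91b9_ntT.CF

open NumberField IsDedekindDomain UniqueFactorizationMonoid Pool.Agent.Lib.MP_1a91b9_nt S4

universe u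

section auxG1
variable {k N : Type u} [Field k] [NumberField k] [Field N] [NumberField N] [Algebra k N]

private theorem auxG_nrm_pow (W : HeightOneSpectrum (𝓞 N)) (v : HeightOneSpectrum (𝓞 k))
    (h : W.under (𝓞 k) = v) : nrm W = nrm v ^ W.asIdeal.inertiaDeg (𝓞 k) := by
  have i1 : W.asIdeal.IsPrime := W.isPrime
  have i2 : W.asIdeal.LiesOver v.asIdeal := ⟨by rw [← h]; rfl⟩
  rw [nrm_eq, nrm_eq, Ideal.absNorm_pow_inertiaDeg v.asIdeal W.asIdeal]

private theorem auxG_deg_pos (W : HeightOneSpectrum (𝓞 N)) : 0 < W.asIdeal.inertiaDeg (𝓞 k) := by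
  have i1 : W.asIdeal.IsPrime := W.isPrime
  exact Ideal.inertiaDeg_pos _ _

private theorem auxG_pow_sub (v : HeightOneSpectrum (𝓞 k)) (x : 𝓞 k) :
    x ^ nrm v - x ∈ v.asIdeal := by
  classical
  have hmax : v.asIdeal.IsMaximal := v.isMaximal
  let _ : Field (𝓞 k ⧸ v.asIdeal) := Ideal.Quotient.field _
  have hfin : Finite (𝓞 k ⧸ v.asIdeal) := v.asIdeal.finiteQuotientOfFreeOfNeBot v.ne_bot
  have := Fintype.ofFinite (𝓞 k ⧸ v.asIdeal)
  have hcard : Fintype.card (𝓞 k ⧸ v.asIdeal) = nrm v := by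
    rw [nrm_eq, Ideal.absNorm_apply, Submodule.cardQuot_apply, Nat.card_eq_fintype_card]
  rw [← Ideal.Quotient.eq_zero_iff_mem, map_sub, map_pow, ← hcard, FiniteField.pow_card, sub_self]

private theorem auxG_under_nat (W : HeightOneSpectrum (𝓞 N)) (q : ℕ) :
    (q : 𝓞 k) ∈ (W.under (𝓞 k)).asIdeal ↔ (q : 𝓞 N) ∈ W.asIdeal := by
  change algebraMap (𝓞 k) (𝓞 N) (q : 𝓞 k) ∈ W.asIdeal ↔ _
  rw [map_natCast]

end auxG1

section auxG2
variable {k E N : Type u} [Field k] [NumberField k] [Field E] [NumberField E] [Field N]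
  [NumberField N] [Algebra k E] [Algebra k N] [Algebra E N] [IsScalarTower k E N]

private theorem auxG_under_under (W : HeightOneSpectrum (𝓞 N)) :
    (W.under (𝓞 E)).under (𝓞 k) = W.under (𝓞 k) := by
  apply HeightOneSpectrum.ext
  change (W.asIdeal.under (𝓞 E)).under (𝓞 k) = W.asIdeal.under (𝓞 k)
  rw [Ideal.under_under]

/-- powers of the Frobenius and roots of unity -/
private theorem auxG_norm_eq (q : ℕ) (hq : q.Prime) (ζ : N) (hζ : IsPrimitiveRoot ζ q) (φ : Gal(N/k))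
    (n m i : ℕ) (h1 : φ ζ = ζ ^ n) (h2 : (φ ^ i) ζ = ζ ^ m) :
    ((m : ℕ) : ZMod q) = ((n : ℕ) : ZMod q) ^ i := by
  have h3 : ∀ j : ℕ, (φ ^ j) ζ = ζ ^ (n ^ j) := by
    intro j
    induction j with
    | zero => simp
    | succ j ih =>
      rw [pow_succ', AlgEquiv.mul_apply, ih, map_pow, h1, ← pow_mul, pow_succ']
  have h4 : ζ ^ m = ζ ^ (n ^ i) := by rw [← h2, h3]
  have hz : ζ ≠ 0 := hζ.ne_zero hq.ne_zero
  have h5 : (IsPrimitiveRoot.isUnit hζ hq.ne_zero).unit ^ m =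
      (IsPrimitiveRoot.isUnit hζ hq.ne_zero).unit ^ (n ^ i) := by
    apply Units.ext
    simpa using h4
  rw [pow_eq_pow_iff_modEq] at h5
  have h6 : orderOf (IsPrimitiveRoot.isUnit hζ hq.ne_zero).unit = q := by
    rw [← orderOf_units, IsUnit.unit_spec]
    exact hζ.eq_orderOf.symm
  rw [h6] at h5
  have h7 := (ZMod.natCast_eq_natCast_iff _ _ _).mpr h5
  rw [h7]
  push_cast
  rfl

end auxG2

section auxG3
variable {k N : Type u} [Field k] [NumberField k] [Field N] [NumberField N] [Algebra k N]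

private theorem auxG_iter (W : HeightOneSpectrum (𝓞 N)) (Φ : Gal(N/k)) (n : ℕ)
    (h : ∀ x : 𝓞 N, Φ • x - x ^ n ∈ W.asIdeal) :
    ∀ (j : ℕ) (x : 𝓞 N), (Φ ^ j) • x - x ^ (n ^ j) ∈ W.asIdeal := by
  intro j
  induction j with
  | zero =>
    intro x
    rw [pow_zero, pow_zero, pow_one, one_smul, sub_self]
    exact Ideal.zero_mem _
  | succ j ih =>
    intro x
    have h1 := h ((Φ ^ j) • x)
    have h2 : ((Φ ^ j) • x) ^ n - (x ^ (n ^ j)) ^ n ∈ W.asIdeal := by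
      obtain ⟨c, hc⟩ := sub_dvd_pow_sub_pow ((Φ ^ j) • x) (x ^ (n ^ j)) n
      rw [hc]
      exact Ideal.mul_mem_right _ _ (ih x)
    have h3 := Ideal.add_mem _ h1 h2
    rw [sub_add_sub_cancel] at h3
    rw [pow_succ' Φ, mul_smul, pow_succ n, pow_mul]
    exact h3

private theorem auxG_zpow (φ : Gal(N/k)) (ζ : N) (n : ℕ) (h1 : φ ζ = ζ ^ n) :
    ∀ j : ℕ, (φ ^ j) ζ = ζ ^ (n ^ j) := by
  intro j
  induction j with
  | zero => simp
  | succ j ih => rw [pow_succ', AlgEquiv.mul_apply, ih, map_pow, h1, ← pow_mul, pow_succ']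

private theorem auxG_fixpow (φ : Gal(N/k)) (x : N) (h1 : φ x = x) : ∀ j : ℕ, (φ ^ j) x = x := by
  intro j
  induction j with
  | zero => rfl
  | succ j ih => rw [pow_succ', AlgEquiv.mul_apply, ih, h1]

end auxG3

private theorem auxG_pow_mod {N : Type u} [Field N] (q : ℕ) (ζ : N) (h : ζ ^ q = 1) (m n : ℕ)
    (hmn : ((m : ℕ) : ZMod q) = ((n : ℕ) : ZMod q)) : ζ ^ m = ζ ^ n := by
  rw [ZMod.natCast_eq_natCast_iff] at hmn
  have h1 : m % q = n % q := hmn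
  rw [pow_eq_pow_mod m h, pow_eq_pow_mod n h, h1]

/-- the auxiliary fields of an inert place `v₀` for the auxiliary prime `q` -/
theorem exists_auxG (k L : Type u) [Field k] [NumberField k] [Field L] [NumberField L]
    [Algebra k L] [IsGalois k L] (ℓ : ℕ) [Fact ℓ.Prime] (hdeg : Module.finrank k L = ℓ)
    {σ : Gal(L/k)} (hσ : σ ≠ 1)
    (v₀ : HeightOneSpectrum (𝓞 k)) (hr : ¬ Ram L v₀) (hs : ¬ Spl L v₀) (i₀ : ℕ)
    (hi₀ : IsArt σ v₀ i₀) (q : ℕ) (hq : q.Prime) (hqv : (q : 𝓞 k) ∉ v₀.asIdeal) (a : (ZMod q)ˣ)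
    (hnv : (nrm v₀ : ZMod q) = a) (ha : ℓ ∣ orderOf a) :
    ∃ (E E1 : Type u) (_ : Field E) (_ : NumberField E) (_ : Field E1)
      (_ : NumberField E1) (_ : Algebra k E) (_ : Algebra k E1) (_ : Algebra E E1)
      (_ : IsScalarTower k E E1), IsGalois E E1 ∧ Module.finrank E E1 = ℓ ∧
      (∃ w₀ : HeightOneSpectrum (𝓞 E), w₀.under (𝓞 k) = v₀ ∧ w₀.asIdeal.inertiaDeg (𝓞 k) = 1) ∧
      (∀ w : HeightOneSpectrum (𝓞 E), (q : 𝓞 E) ∉ w.asIdeal → ∃ i : ℕ,
        (nrm w : ZMod q) = ((a ^ i : (ZMod q)ˣ) : ZMod q) ∧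
        (ℓ ∣ i → ¬ Ram L (w.under (𝓞 k)) → ¬ Spl L (w.under (𝓞 k)) →
          ℓ ∣ w.asIdeal.inertiaDeg (𝓞 k))) ∧
      (∀ w : HeightOneSpectrum (𝓞 E1), (q : 𝓞 E1) ∉ w.asIdeal → ¬ Ram L (w.under (𝓞 k)) →
        w.asIdeal.inertiaDeg (𝓞 k) = 1 → ∃ i : ℕ, ℓ ∣ i ∧
        (nrm (w.under (𝓞 E)) : ZMod q) = ((a ^ i : (ZMod q)ˣ) : ZMod q)) ∧
      (∀ w : HeightOneSpectrum (𝓞 E), Spl L (w.under (𝓞 k)) → Spl E1 w) ∧
      (∀ (v : HeightOneSpectrum (𝓞 k)) (f i iv : ℕ), ¬ Ram L v → (q : 𝓞 k) ∉ v.asIdeal →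
        IsArt σ v iv → 0 < f → (f : ZMod ℓ) * iv = i * i₀ →
        (nrm v : ZMod q) ^ f = ((a ^ i : (ZMod q)ˣ) : ZMod q) →
        ∃ w : HeightOneSpectrum (𝓞 E), w.under (𝓞 k) = v ∧
          w.asIdeal.inertiaDeg (𝓞 k) ∣ f) := by
  classical
  have hℓ : ℓ.Prime := Fact.out
  obtain ⟨N, iN, nN, akN, aLN, tkLN, ζ, hgalN, hζ, hdet⟩ := exists_cyc k L q hq
  obtain ⟨W₀, hW₀⟩ := exists_over (N := N) v₀
  obtain ⟨φ, hφ⟩ := exists_fr (k := k) W₀
  rw [hW₀] at hφ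
  have hqW₀ : (q : 𝓞 N) ∉ W₀.asIdeal := by
    rw [← auxG_under_nat (k := k), hW₀]
    exact hqv
  -- the degree of a place of `L` above an inert place
  have hinert : ∀ V : HeightOneSpectrum (𝓞 L), ¬ Ram L (V.under (𝓞 k)) →
      ¬ Spl L (V.under (𝓞 k)) → V.asIdeal.inertiaDeg (𝓞 k) = ℓ := by
    intro V h1 h2
    rcases trichotomy k L ℓ hdeg (V.under (𝓞 k)) with h | h | h
    · exact absurd h.1 h1
    · exact (h.2.2.2 ⟨V, rfl⟩).2
    · exact absurd h.2.1 h2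
  have hφL : ∃ x : L, φ (algebraMap L N x) ≠ algebraMap L N x := by
    by_contra hcon
    push Not at hcon
    have h1 := fr_fix (L := L) W₀ φ (nrm v₀) 1 v₀ hW₀ (pow_one _).symm one_pos hφ hcon
    have h2 : (W₀.under (𝓞 L)).under (𝓞 k) = v₀ := by rw [auxG_under_under, hW₀]
    rw [hinert (W₀.under (𝓞 L)) (by rw [h2]; exact hr) (by rw [h2]; exact hs)] at h1
    exact hℓ.one_lt.ne' (Nat.dvd_one.mp h1)
  obtain ⟨E, E1, iE, nE, iE1, nE1, akE, akE1, aEE1, aEN, aE1N, aLE1, s1, s2, s3, s4, s5, s6,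
    hgal1, hdeg1, hgalE, hE, hE1, hpow, τ, hτ⟩ := exists_fixed k L N ℓ hdeg φ hφL
  -- the subgroup fixing `L`
  let H : Subgroup Gal(N/k) :=
    { carrier := {σ | ∀ x : L, σ (algebraMap L N x) = algebraMap L N x}
      mul_mem' := by
        intro σ σ' h h' x
        rw [AlgEquiv.mul_apply, h' x, h x]
      one_mem' := fun x => rfl
      inv_mem' := by
        intro σ h x
        have h1 : σ.symm (σ (algebraMap L N x)) = algebraMap L N x := σ.symm_apply_apply _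
        rw [h x] at h1
        exact h1 }
  have hH : ∀ σ : Gal(N/k), σ ∈ H ↔ ∀ x : L, σ (algebraMap L N x) = algebraMap L N x :=
    fun σ => Iff.rfl
  have hφℓ : φ ^ ℓ ∈ H := by
    rw [hH]
    intro x
    rw [← hE1]
    exact ⟨algebraMap L E1 x, (IsScalarTower.algebraMap_apply L E1 N x).symm⟩
  have hφn : φ ∉ H := by
    rw [hH]
    push Not
    exact hφL
  have hdvd : ∀ i : ℕ, φ ^ i ∈ H → ℓ ∣ i := by
    intro i hi
    by_contra hnd
    have hc : Nat.Coprime ℓ i := (Nat.Prime.coprime_iff_not_dvd hℓ).mpr hnd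
    have hc' : IsCoprime (ℓ : ℤ) (i : ℤ) := Nat.isCoprime_iff_coprime.mpr hc
    obtain ⟨u, w, huw⟩ := hc'
    apply hφn
    have e : φ = (φ ^ ℓ) ^ u * (φ ^ i) ^ w := by
      rw [← zpow_natCast φ ℓ, ← zpow_natCast φ i, ← zpow_mul, ← zpow_mul, ← zpow_add,
        mul_comm (ℓ : ℤ) u, mul_comm (i : ℤ) w, huw, zpow_one]
    rw [e]
    exact H.mul_mem (H.zpow_mem hφℓ u) (H.zpow_mem hi w)
  have hmemH : ∀ i : ℕ, ℓ ∣ i → φ ^ i ∈ H := by
    rintro i ⟨j, rfl⟩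
    rw [pow_mul]
    exact H.pow_mem hφℓ j
  have hφζ : φ ζ = ζ ^ nrm v₀ := hφ.zeta hW₀ q hqW₀ ζ hζ.pow_eq_one
  -- Frobenius elements over `E`
  have hfrob : ∀ W : HeightOneSpectrum (𝓞 N), (q : 𝓞 N) ∉ W.asIdeal → ∃ i : ℕ,
      (nrm (W.under (𝓞 E)) : ZMod q) = ((a ^ i : (ZMod q)ˣ) : ZMod q) ∧
      ∀ x : 𝓞 N, (φ ^ i) • x - x ^ nrm (W.under (𝓞 E)) ∈ W.asIdeal := by
    intro W hW
    obtain ⟨σ, hσ⟩ := exists_fr (k := E) W
    obtain ⟨i, hi⟩ := hpow σ
    refine ⟨i, ?_, ?_⟩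
    · have h1 : σ ζ = ζ ^ nrm (W.under (𝓞 E)) := hσ.zeta rfl q hW ζ hζ.pow_eq_one
      rw [hi] at h1
      rw [auxG_norm_eq q hq ζ hζ φ (nrm v₀) _ i hφζ h1, Units.val_pow_eq_pow_val, hnv]
    · intro x
      have h1 := hσ x
      have h2 : σ • x = (φ ^ i) • x := by
        apply RingOfIntegers.ext
        exact hi x
      rw [h2] at h1
      exact h1
  have hgalE1 : IsGalois E1 N := IsGalois.tower_top_of_isGalois k E1 N
  refine ⟨E, E1, iE, nE, iE1, nE1, akE, akE1, aEE1, s1, hgal1,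
    hdeg1, ⟨W₀.under (𝓞 E), ?_, ?_⟩, ?_, ?_, ?_, ?_⟩
  · rw [auxG_under_under, hW₀]
  · have h1 := fr_fix (L := E) W₀ φ (nrm v₀) 1 v₀ hW₀ (pow_one _).symm one_pos hφ
      (fun x => (hE _).mp ⟨x, rfl⟩)
    exact Nat.dvd_one.mp h1
  · intro w hw
    obtain ⟨W, hWw⟩ := exists_over (N := N) w
    have hqW : (q : 𝓞 N) ∉ W.asIdeal := by
      rw [← auxG_under_nat (k := E), hWw]
      exact hw
    obtain ⟨i, hi1, hi2⟩ := hfrob W hqW
    rw [hWw] at hi1 hi2
    refine ⟨i, hi1, ?_⟩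
    intro hdi hram hspl
    have hWk : W.under (𝓞 k) = w.under (𝓞 k) := by rw [← auxG_under_under (E := E), hWw]
    have h1 := fr_fix (L := L) W (φ ^ i) (nrm w) (w.asIdeal.inertiaDeg (𝓞 k)) (w.under (𝓞 k)) hWk
      (auxG_nrm_pow w _ rfl) (auxG_deg_pos w) hi2 ((hH _).mp (hmemH i hdi))
    have h2 : (W.under (𝓞 L)).under (𝓞 k) = w.under (𝓞 k) := by rw [auxG_under_under, hWk]
    rw [hinert (W.under (𝓞 L)) (by rw [h2]; exact hram) (by rw [h2]; exact hspl)] at h1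
    exact h1
  · intro w hw hram hdeg2
    obtain ⟨W, hWw⟩ := exists_over (N := N) w
    have hqW : (q : 𝓞 N) ∉ W.asIdeal := by
      rw [← auxG_under_nat (k := E1), hWw]
      exact hw
    obtain ⟨i, hi1, hi2⟩ := hfrob W hqW
    have hWE : W.under (𝓞 E) = w.under (𝓞 E) := by rw [← auxG_under_under (E := E1), hWw]
    rw [hWE] at hi1 hi2
    have hWk : W.under (𝓞 k) = w.under (𝓞 k) := by rw [← auxG_under_under (E := E1), hWw]
    refine ⟨i, ?_, hi1⟩
    have hn1 : nrm w = nrm (w.under (𝓞 k)) := by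
      rw [auxG_nrm_pow w (w.under (𝓞 k)) rfl, hdeg2, pow_one]
    have hn2 : nrm (w.under (𝓞 E)) = nrm w := by
      have h3 : nrm w = nrm (w.under (𝓞 E)) ^ w.asIdeal.inertiaDeg (𝓞 E) := auxG_nrm_pow w _ rfl
      have h4 : nrm (w.under (𝓞 E)) = nrm (w.under (𝓞 k)) ^
          (w.under (𝓞 E)).asIdeal.inertiaDeg (𝓞 k) :=
        auxG_nrm_pow (w.under (𝓞 E)) _ (auxG_under_under w)
      have h5 := auxG_deg_pos (k := E) w
      have h6 := auxG_deg_pos (k := k) (w.under (𝓞 E))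
      have h7 : nrm (w.under (𝓞 E)) ≤ nrm w := by
        conv_rhs => rw [h3]
        exact Nat.le_self_pow h5.ne' _
      have h8 : nrm w ≤ nrm (w.under (𝓞 E)) := by
        rw [hn1, h4]
        exact Nat.le_self_pow h6.ne' _
      omega
    have h1 : ∀ x : 𝓞 L,
        (φ ^ i) • (algebraMap (𝓞 L) (𝓞 N) x) - algebraMap (𝓞 L) (𝓞 N) x ∈ W.asIdeal := by
      intro x
      have h2 := hi2 (algebraMap (𝓞 L) (𝓞 N) x)
      have h3 : (algebraMap (𝓞 L) (𝓞 N) x) ^ nrm (w.under (𝓞 E)) - algebraMap (𝓞 L) (𝓞 N) x ∈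
          W.asIdeal := by
        have h4 := auxG_pow_sub w (algebraMap (𝓞 L) (𝓞 E1) x)
        rw [← hWw] at h4
        have h5 : algebraMap (𝓞 E1) (𝓞 N) ((algebraMap (𝓞 L) (𝓞 E1) x) ^ nrm (W.under (𝓞 E1)) -
          algebraMap (𝓞 L) (𝓞 E1) x) ∈ W.asIdeal := h4
        have h6 : algebraMap (𝓞 E1) (𝓞 N) (algebraMap (𝓞 L) (𝓞 E1) x) =
            algebraMap (𝓞 L) (𝓞 N) x := by
          rw [← IsScalarTower.algebraMap_apply (𝓞 L) (𝓞 E1) (𝓞 N)]
        rw [map_sub, map_pow, h6, hWw, ← hn2] at h5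
        exact h5
      have h7 := Ideal.add_mem _ h2 h3
      rw [sub_add_sub_cancel] at h7
      exact h7
    exact hdvd i ((hH _).mpr (fix_of_triv W (φ ^ i) (by rw [hWk]; exact hram) h1))
  · intro w hw
    obtain ⟨x, hx⟩ := hφL
    refine spl_up k L E E1 ℓ hdeg hdeg1 τ ⟨x, ?_⟩ w hw
    intro hcon
    apply hx
    have h1 := hτ (algebraMap L E1 x)
    rw [hcon, ← IsScalarTower.algebraMap_apply L E1 N] at h1
    exact h1.symm
  · intro v f i iv hram hqv' hiv hf hcong hnorm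
    obtain ⟨W, hW⟩ := exists_over (N := N) v
    obtain ⟨Φ, hΦ⟩ := exists_fr (k := k) W
    rw [hW] at hΦ
    have hqW : (q : 𝓞 N) ∉ W.asIdeal := by
      rw [← auxG_under_nat (k := k), hW]
      exact hqv'
    have hΦf := auxG_iter W Φ (nrm v) hΦ
    have h1 : ∀ x : L, (Φ ^ f) (algebraMap L N x) = algebraMap L N ((σ ^ (iv * f)) x) := fun x =>
      fr_pow_restrict hW hram hiv (Φ ^ f) f (fun x => hΦf f (algebraMap (𝓞 L) (𝓞 N) x)) x
    have h2 : ∀ x : L, φ (algebraMap L N x) = algebraMap L N ((σ ^ i₀) x) := by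
      intro x
      have h3 := fr_pow_restrict hW₀ hr hi₀ φ 1 (fun x => by
        rw [pow_one]
        exact hφ (algebraMap (𝓞 L) (𝓞 N) x)) x
      rw [mul_one] at h3
      exact h3
    have h3 : ∀ (j : ℕ) (x : L), (φ ^ j) (algebraMap L N x) =
        algebraMap L N ((σ ^ (i₀ * j)) x) := by
      intro j
      induction j with
      | zero => intro x; rfl
      | succ j ih =>
        intro x
        rw [pow_succ', AlgEquiv.mul_apply, ih, h2, ← AlgEquiv.mul_apply, ← pow_add,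
          Nat.mul_succ, Nat.add_comm]
    have hpe : σ ^ (iv * f) = σ ^ (i₀ * i) := by
      rw [pow_eq_pow_of ℓ hdeg hσ]
      push_cast
      rw [mul_comm (iv : ZMod ℓ), hcong, mul_comm]
    have h4 : ∀ x : L, (Φ ^ f) (algebraMap L N x) = (φ ^ i) (algebraMap L N x) := by
      intro x
      rw [h1, h3, hpe]
    have hΦζ : Φ ζ = ζ ^ nrm v := hΦ.zeta hW q hqW ζ hζ.pow_eq_one
    have h5 : (Φ ^ f) ζ = (φ ^ i) ζ := by
      rw [auxG_zpow Φ ζ _ hΦζ, auxG_zpow φ ζ _ hφζ]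
      refine auxG_pow_mod q ζ hζ.pow_eq_one _ _ ?_
      push_cast
      rw [hnorm, Units.val_pow_eq_pow_val, hnv]
    have h6 : Φ ^ f = φ ^ i := by
      have h7 : (φ ^ i)⁻¹ * Φ ^ f = 1 := by
        refine hdet _ ?_ ?_
        · intro x
          rw [AlgEquiv.mul_apply, h4, ← AlgEquiv.mul_apply, inv_mul_cancel]
          rfl
        · rw [AlgEquiv.mul_apply, h5, ← AlgEquiv.mul_apply, inv_mul_cancel]
          rfl
      exact (inv_mul_eq_one.mp h7).symm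
    have h8 : ∀ x : E, (Φ ^ f) (algebraMap E N x) = algebraMap E N x := by
      intro x
      rw [h6]
      exact auxG_fixpow φ _ ((hE _).mp ⟨x, rfl⟩) i
    refine ⟨W.under (𝓞 E), ?_, ?_⟩
    · rw [auxG_under_under, hW]
    · exact fr_fix (L := E) W (Φ ^ f) (nrm v ^ f) f v hW rfl hf (hΦf f) h8


end Pool.Agent.Lib.MP_1a91b9_ntT.CF
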