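import Pool.Agent.Lib.MP_1a91b9_ntT.CF.Defs

/-! # CA: lifting an automorphism with a prescribed action on a root of unity

PROOF (complete): M and ℚ(ζ) (an intermediate field of N over ℚ, `IntermediateField.adjoin ℚ {ζ}`, Galois over ℚ) are
linearly disjoint over ℚ in N: `NumberField.linearDisjoint_of_isGalois_isCoprime_discr` (Mathlib file
NumberTheory/NumberField/Discriminant/Different.lean) for K₁ = ℚ(ζ) and K₂ = the range of M in N; discr of K₂ is
discr M (`NumberField.discr_eq_discr_of_algEquiv`), discr of K₁ is ± a power of q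
(`IsCyclotomicExtension.Rat.absdiscr_prime` or similar). So the minimal polynomial of ζ over M has the degree q - 1 of
the cyclotomic polynomial of order q and divides it: minpoly M ζ = cyclotomic q M. (Another way: q is unramified in M,
`not_dvd_discr_iff_...`, and (cyclotomic q).comp (X + 1) is Eisenstein at a prime P of O_M above q:
`cyclotomic_comp_X_add_one_isEisensteinAt`.)
First h₀ in Gal(N/k) which extends φ (`AlgEquiv.restrictNormalHom_surjective`), h₀ ζ = ζ ^ b with b prime to q.
Choose e with b * e = c modulo q. ζ ^ e is a primitive root, so a root of minpoly M ζ; by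
`minpoly.exists_algEquiv_of_root` (N normal over M) there is τ in Gal(N/M) with τ ζ = ζ ^ e.
h = h₀ * τ (restrict scalars of τ): h ζ = h₀ (ζ ^ e) = ζ ^ (b e) = ζ ^ c, and h = φ on M.
-/

set_option autoImplicit false

namespace Pool.Agent.Lib.MP_1a91b9_ntT.CF

open NumberField IsDedekindDomain

universe u

/-- M and the field generated by ζ are linearly disjoint -/
private theorem Lift_disj (M N : Type u) [Field M] [NumberField M] [Field N]
    [NumberField N] [Algebra M N] (q : ℕ) (hq : q.Prime) (hd : ¬ (q : ℤ) ∣ discr M) (ζ : N)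
    (hζ : IsPrimitiveRoot ζ q) :
    (IntermediateField.adjoin ℚ {ζ}).LinearDisjoint M := by
  have : Fact q.Prime := ⟨hq⟩
  have hcyc : IsCyclotomicExtension {q} ℚ (IntermediateField.adjoin ℚ {ζ}) :=
    hζ.intermediateField_adjoin_isCyclotomicExtension ℚ
  have : IsGalois ℚ (IntermediateField.adjoin ℚ {ζ}) := IsCyclotomicExtension.isGalois {q} ℚ _
  have h1 : discr (IntermediateField.adjoin ℚ {ζ}) = (-1) ^ ((q - 1) / 2) * q ^ (q - 2) :=
    IsCyclotomicExtension.Rat.discr_prime q _
  have h2 : discr (IsScalarTower.toAlgHom ℚ M N).fieldRange = discr M :=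
    (discr_eq_discr_of_algEquiv M
      (AlgEquiv.ofInjectiveField (IsScalarTower.toAlgHom ℚ M N))).symm
  have h3 : IsCoprime (discr (IntermediateField.adjoin ℚ {ζ}))
      (discr (IsScalarTower.toAlgHom ℚ M N).fieldRange) := by
    rw [h1, h2]
    have h4 : IsCoprime (q : ℤ) (discr M) :=
      (Prime.coprime_iff_not_dvd (Nat.prime_iff_prime_int.1 hq)).2 hd
    have h5 : IsCoprime ((q : ℤ) ^ (q - 2)) (discr M) := h4.pow_left
    have h6 : IsUnit ((-1 : ℤ) ^ ((q - 1) / 2)) := IsUnit.pow _ (isUnit_one.neg)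
    exact (isCoprime_mul_unit_left_left h6 _ _).2 h5
  have h4 := linearDisjoint_of_isGalois_isCoprime_discr N (IntermediateField.adjoin ℚ {ζ})
    (IsScalarTower.toAlgHom ℚ M N).fieldRange h3
  have h5 : (IsScalarTower.toAlgHom ℚ (IsScalarTower.toAlgHom ℚ M N).fieldRange N).range =
      (IsScalarTower.toAlgHom ℚ M N).range := by
    ext x
    constructor
    · rintro ⟨⟨y, z, hz⟩, rfl⟩
      exact ⟨z, hz⟩
    · rintro ⟨z, rfl⟩
      exact ⟨⟨algebraMap M N z, z, rfl⟩, rfl⟩
  show Subalgebra.LinearDisjoint _ (IsScalarTower.toAlgHom ℚ M N).range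
  rw [← h5]
  exact h4

private theorem Lift_minpoly (M N : Type u) [Field M] [NumberField M] [Field N]
    [NumberField N] [Algebra M N] (q : ℕ) (hq : q.Prime) (hd : ¬ (q : ℤ) ∣ discr M) (ζ : N)
    (hζ : IsPrimitiveRoot ζ q) : minpoly M ζ = Polynomial.cyclotomic q M := by
  have : Fact q.Prime := ⟨hq⟩
  have H := Lift_disj M N q hq hd ζ hζ
  have hcyc : IsCyclotomicExtension {q} ℚ (IntermediateField.adjoin ℚ {ζ}) :=
    hζ.intermediateField_adjoin_isCyclotomicExtension ℚ
  have h1 : Module.rank M (IntermediateField.adjoin M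
      ((IntermediateField.adjoin ℚ {ζ} : IntermediateField ℚ N) : Set N)) =
      Module.rank ℚ (IntermediateField.adjoin ℚ {ζ}) :=
    H.adjoin_rank_eq_rank_left_of_isAlgebraic_left
  have h2 : IntermediateField.adjoin M
      ((IntermediateField.adjoin ℚ {ζ} : IntermediateField ℚ N) : Set N) =
      IntermediateField.adjoin M {ζ} := by
    apply le_antisymm
    · rw [IntermediateField.adjoin_le_iff]
      have h3 : IntermediateField.adjoin ℚ {ζ} ≤
          (IntermediateField.adjoin M {ζ}).restrictScalars ℚ := by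
        rw [IntermediateField.adjoin_le_iff, Set.singleton_subset_iff]
        exact IntermediateField.mem_adjoin_simple_self M ζ
      exact h3
    · rw [IntermediateField.adjoin_le_iff, Set.singleton_subset_iff]
      exact IntermediateField.subset_adjoin M _ (IntermediateField.mem_adjoin_simple_self ℚ ζ)
  rw [h2] at h1
  have h3 : (minpoly M ζ).natDegree = q.totient := by
    have h4 : Module.finrank M (IntermediateField.adjoin M {ζ}) =
        Module.finrank ℚ (IntermediateField.adjoin ℚ {ζ}) := by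
      unfold Module.finrank
      rw [h1]
    rw [IntermediateField.adjoin.finrank (Algebra.IsIntegral.isIntegral ζ)] at h4
    rw [h4]
    exact IsCyclotomicExtension.finrank (n := q) _ (Polynomial.cyclotomic.irreducible_rat hq.pos)
  have h4 : minpoly M ζ ∣ Polynomial.cyclotomic q M := by
    apply minpoly.dvd
    rw [Polynomial.aeval_def, Polynomial.eval₂_eq_eval_map, Polynomial.map_cyclotomic]
    exact hζ.isRoot_cyclotomic hq.pos
  symm
  refine Polynomial.eq_of_monic_of_dvd_of_natDegree_le
    (minpoly.monic (Algebra.IsIntegral.isIntegral ζ)) (Polynomial.cyclotomic.monic q M) h4 ?_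
  rw [h3, Polynomial.natDegree_cyclotomic]

theorem exists_lift (k M N : Type u) [Field k] [NumberField k] [Field M] [NumberField M] [Field N]
    [NumberField N] [Algebra k M] [Algebra k N] [Algebra M N] [IsScalarTower k M N] [IsGalois k M]
    [IsGalois k N] (q : ℕ) (hq : q.Prime) (hd : ¬ (q : ℤ) ∣ discr M) (ζ : N)
    (hζ : IsPrimitiveRoot ζ q) (φ : Gal(M/k)) (c : ℕ) (hc : c.Coprime q) :
    ∃ h : Gal(N/k), (∀ x : M, h (algebraMap M N x) = algebraMap M N (φ x)) ∧ h ζ = ζ ^ c := by
  have : Fact q.Prime := ⟨hq⟩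
  have hmin := Lift_minpoly M N q hq hd ζ hζ
  obtain ⟨h₀, hh₀⟩ := AlgEquiv.restrictNormalHom_surjective (F := k) (K₁ := M) N φ
  have hM : ∀ x : M, h₀ (algebraMap M N x) = algebraMap M N (φ x) := by
    intro x
    rw [← hh₀]
    exact (AlgEquiv.restrictNormal_commutes h₀ M x).symm
  have hprim : IsPrimitiveRoot (h₀ ζ) q := hζ.map_of_injective h₀.injective
  obtain ⟨b, hb, hb'⟩ := hζ.eq_pow_of_pow_eq_one hprim.pow_eq_one
  have hbc : b.Coprime q := by
    rw [← hζ.pow_iff_coprime hq.pos, hb']
    exact hprim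
  obtain ⟨e, he⟩ : ∃ e : ℕ, b * e ≡ c [MOD q] := by
    refine ⟨(((ZMod.unitOfCoprime b hbc)⁻¹ * (c : ZMod q) : ZMod q)).val, ?_⟩
    rw [← ZMod.natCast_eq_natCast_iff, Nat.cast_mul, ZMod.natCast_zmod_val, ← mul_assoc]
    have h1 : ((b : ZMod q)) = ((ZMod.unitOfCoprime b hbc : (ZMod q)ˣ) : ZMod q) := rfl
    rw [h1, Units.mul_inv, one_mul]
  have hec : e.Coprime q := by
    have h1 : (b * e).Coprime q := by
      have h2 := he.gcd_eq
      rw [Nat.Coprime, h2]
      exact hc
    exact Nat.Coprime.coprime_mul_left h1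
  have hroot : Polynomial.aeval (ζ ^ e) (minpoly M ζ) = 0 := by
    rw [hmin, Polynomial.aeval_def, Polynomial.eval₂_eq_eval_map, Polynomial.map_cyclotomic]
    exact (hζ.pow_of_coprime e hec).isRoot_cyclotomic hq.pos
  have : IsGalois M N := IsGalois.tower_top_of_isGalois k M N
  obtain ⟨τ, hτ⟩ := minpoly.exists_algEquiv_of_root' (Algebra.IsAlgebraic.isAlgebraic ζ) hroot
  refine ⟨h₀ * τ.restrictScalars k, fun x => ?_, ?_⟩
  · show h₀ (τ (algebraMap M N x)) = _
    rw [τ.commutes, hM]
  · show h₀ (τ ζ) = _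
    rw [hτ, map_pow, ← hb', ← pow_mul]
    have h1 : ζ ^ (b * e % q) = ζ ^ (c % q) := by rw [he]
    rw [hζ.eq_orderOf, pow_mod_orderOf, pow_mod_orderOf] at h1
    exact h1

end Pool.Agent.Lib.MP_1a91b9_ntT.CF
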