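import Pool.Agent.Lib.MP_1a91b9_ntT.CF.DensZero
import Pool.Agent.Lib.MP_1a91b9_ntT.CA.TrickG
import Pool.Agent.Lib.MP_1a91b9_ntT.CA.Lift

/-! # CA: comparison of two inert places

PROOF (complete): all fields below contain k and L. v₀ and v₁ are unramified in L (hram). 
1. q₀ from `exists_q ℓ _ (nrm v₀) (nrm v₀)`, a₀ the unit of norm nrm v₀, q₀ not in v₀ (q₀ > nrm v₀: see
   `auxf_not_mem` in CF/AuxF.lean, copy it). M = L(ζ₀) from `exists_cyc k L q₀`. W₀ a place of M above v₀, φ₀ a Frobenius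
   at W₀ over k (`exists_over`, `exists_fr`): φ₀ ζ₀ = ζ₀ ^ nrm v₀ (IsFr.zeta), φ₀ = σ ^ i₀ on L (`fr_pow_restrict`, f = 1).
2. q₁ from `exists_q ℓ _ (nrm v₁) B` with B = max (nrm v₁) (max q₀ |discr M|): q₁ not in v₁, q₁ does not
   divide discr M (discr M ≠ 0). N = M(ζ₁) from `exists_cyc k M q₁`. c = nrm v₁ ^ j is prime to q₁ (a₁ is a unit).
   h from `exists_lift k M N q₁ ... ζ₁ φ₀ c`: h = φ₀ on M, h ζ₁ = ζ₁ ^ c.
3. h is not trivial on L: σ ^ i₀ ≠ 1 since v₀ does not split (`art_spl`, `pow_eq_pow_of`). (L N is a scalar tower over M: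
   algebraMap L N := (algebraMap M N).comp (algebraMap L M).)
   E, E1, τ from `exists_fixed k L N ℓ hdeg h`; `spl_up` gives hup; `dens_zero k L ℓ hdeg m hm0 hm1 x hx hne hspl` gives
   hT. `norm_ne_zero` with the ideal n = m O_E (q₀) (q₁) (nonzero) gives a place w of E with ¬ n ≤ w and f * x v ≠ 0 where
   v = w.under, f = inertia degree of w over k. So ¬ m ≤ v, q₀ ∉ w, q₁ ∉ w, hence q₀, q₁ ∉ v.
   Let W above w in N, τ in Gal(N/E) a Frobenius at W over w; τ = h ^ i' (property of exists_fixed). nrm w = nrm v ^ f.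
   Let iv with IsArt σ v iv (`exists_art`).
   - on L: τ = σ ^ (iv * f) (`fr_pow_restrict`), h ^ i' = σ ^ (i₀ * i'): so f * iv = i' * i₀ in ZMod ℓ.
   - on ζ₀ (image in N): τ ζ₀ = ζ₀ ^ nrm w and h ^ i' ζ₀ = ζ₀ ^ (nrm v₀ ^ i'): nrm v ^ f = a₀ ^ i' in ZMod q₀.
   - on ζ₁: nrm v ^ f = (a₁ ^ j) ^ i' in ZMod q₁.
   `art_rel` at v₀, q₀ gives f * x v = i' * x v₀; `art_rel` at v₁, q₁ with i = j * i' gives f * x v = j * i' * x v₁
   (f * iv = i' * i₀ = i' * j * i₁). As f * x v ≠ 0, i' ≠ 0 in ZMod ℓ and x v₀ = j * x v₁.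
-/

set_option autoImplicit false

namespace Pool.Agent.Lib.MP_1a91b9_ntT.CF

open NumberField IsDedekindDomain UniqueFactorizationMonoid Pool.Agent.Lib.MP_1a91b9_nt S4

universe u

section link1
variable {k N : Type u} [Field k] [NumberField k] [Field N] [NumberField N] [Algebra k N]

private theorem link_two_le (v : HeightOneSpectrum (𝓞 k)) : 2 ≤ nrm v := by
  rw [nrm_eq]
  have h0 : Ideal.absNorm v.asIdeal ≠ 0 := by
    rw [Ne, Ideal.absNorm_eq_zero_iff]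
    exact v.ne_bot
  have h1 : Ideal.absNorm v.asIdeal ≠ 1 := by
    rw [Ne, Ideal.absNorm_eq_one_iff]
    exact v.isPrime.ne_top
  omega

private theorem link_not_mem (v : HeightOneSpectrum (𝓞 k)) (q : ℕ) (hq : q.Prime)
    (h : nrm v < q) : (q : 𝓞 k) ∉ v.asIdeal := by
  intro hm
  have h1 : ((nrm v : ℕ) : 𝓞 k) ∈ v.asIdeal := by
    rw [nrm_eq]
    exact Ideal.absNorm_mem _
  have h2 := link_two_le v
  have hc : Nat.Coprime (nrm v) q :=
    (Nat.coprime_of_lt_prime (by omega) h hq).symm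
  have hc' : IsCoprime ((nrm v : ℕ) : ℤ) (q : ℤ) := Nat.isCoprime_iff_coprime.mpr hc
  obtain ⟨a, b, hab⟩ := hc'
  apply v.isPrime.ne_top
  rw [Ideal.eq_top_iff_one]
  have e : (1 : 𝓞 k) = (a : 𝓞 k) * ((nrm v : ℕ) : 𝓞 k) + (b : 𝓞 k) * (q : 𝓞 k) := by
    have := congrArg (Int.cast : ℤ → 𝓞 k) hab
    push_cast at this
    exact this.symm
  rw [e]
  exact Ideal.add_mem _ (Ideal.mul_mem_left _ _ h1) (Ideal.mul_mem_left _ _ hm)

private theorem link_nat (W : HeightOneSpectrum (𝓞 N)) (q : ℕ) :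
    (q : 𝓞 k) ∈ (W.under (𝓞 k)).asIdeal ↔ (q : 𝓞 N) ∈ W.asIdeal := by
  change algebraMap (𝓞 k) (𝓞 N) (q : 𝓞 k) ∈ W.asIdeal ↔ _
  rw [map_natCast]

private theorem link_nrm (W : HeightOneSpectrum (𝓞 N)) :
    nrm W = nrm (W.under (𝓞 k)) ^ W.asIdeal.inertiaDeg (𝓞 k) := by
  have hlo : W.asIdeal.LiesOver (W.under (𝓞 k)).asIdeal := ⟨rfl⟩
  rw [nrm_eq, nrm_eq, Ideal.absNorm_pow_inertiaDeg (W.under (𝓞 k)).asIdeal W.asIdeal]

/-- powers of an automorphism and roots of unity -/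
private theorem link_norm_eq (q : ℕ) (hq : q.Prime) (ζ : N) (hζ : IsPrimitiveRoot ζ q)
    (φ : Gal(N/k)) (n m i : ℕ) (h1 : φ ζ = ζ ^ n) (h2 : (φ ^ i) ζ = ζ ^ m) :
    ((m : ℕ) : ZMod q) = ((n : ℕ) : ZMod q) ^ i := by
  have h3 : ∀ j : ℕ, (φ ^ j) ζ = ζ ^ (n ^ j) := by
    intro j
    induction j with
    | zero => simp
    | succ j ih =>
      rw [pow_succ', AlgEquiv.mul_apply, ih, map_pow, h1, ← pow_mul, pow_succ']
  have h4 : ζ ^ m = ζ ^ (n ^ i) := by rw [← h2, h3]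
  have hz : ζ ≠ 0 := hζ.ne_zero hq.ne_zero
  have h5 : (IsPrimitiveRoot.isUnit hζ hq.ne_zero).unit ^ m =
      (IsPrimitiveRoot.isUnit hζ hq.ne_zero).unit ^ (n ^ i) := by
    apply Units.ext
    simpa using h4
  rw [pow_eq_pow_iff_modEq] at h5
  have h6 : orderOf (IsPrimitiveRoot.isUnit hζ hq.ne_zero).unit = q := by
    rw [← orderOf_units, IsUnit.unit_spec]
    exact hζ.eq_orderOf.symm
  rw [h6] at h5
  have h7 := (ZMod.natCast_eq_natCast_iff _ _ _).mpr h5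
  rw [h7]
  push_cast
  rfl

end link1

section link2
variable {k L M N : Type u} [Field k] [NumberField k] [Field L] [NumberField L] [Field M]
  [NumberField M] [Field N] [NumberField N] [Algebra k L] [Algebra k M] [Algebra k N] [Algebra L M]
  [Algebra M N] [Algebra L N] [IsScalarTower k L M] [IsScalarTower k M N] [IsScalarTower L M N]
  [IsScalarTower k L N]

private theorem link_pow {h : Gal(N/k)} {φ : Gal(M/k)}
    (hM : ∀ x : M, h (algebraMap M N x) = algebraMap M N (φ x)) (i : ℕ) (x : M) :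
    (h ^ i) (algebraMap M N x) = algebraMap M N ((φ ^ i) x) := by
  induction i with
  | zero => rfl
  | succ i ih => rw [pow_succ', pow_succ', AlgEquiv.mul_apply, AlgEquiv.mul_apply, ih, hM]

/-- the restriction to `L` of the powers -/
private theorem link_powL {h : Gal(N/k)} {φ : Gal(M/k)} {ρ : Gal(L/k)}
    (hM : ∀ x : M, h (algebraMap M N x) = algebraMap M N (φ x))
    (hL : ∀ x : L, φ (algebraMap L M x) = algebraMap L M (ρ x)) (i : ℕ) (x : L) :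
    (h ^ i) (algebraMap L N x) = algebraMap L N ((ρ ^ i) x) := by
  rw [IsScalarTower.algebraMap_apply L M N, link_pow hM, link_pow hL,
    ← IsScalarTower.algebraMap_apply L M N]

end link2

section
variable (k L : Type u) [Field k] [NumberField k] [Field L] [NumberField L] [Algebra k L]
  [IsGalois k L] (ℓ : ℕ) [Fact ℓ.Prime]

theorem art_link (h2 : ℓ ≠ 2) (hdeg : Module.finrank k L = ℓ) {σ : Gal(L/k)} (hσ : σ ≠ 1)
    (m : Ideal (𝓞 k)) (hm0 : m ≠ 0) (hm1 : m ≠ 1) (hram : ∀ v, Ram L v → m ≤ v.asIdeal)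
    (x : HeightOneSpectrum (𝓞 k) → ZMod ℓ) (hx : RC m x) (hne : ∃ v, x v ≠ 0)
    (hspl : ∀ v, Spl L v → x v = 0) (v₀ v₁ : HeightOneSpectrum (𝓞 k)) (hv₀ : ¬ m ≤ v₀.asIdeal)
    (hv₁ : ¬ m ≤ v₁.asIdeal) (hs₀ : ¬ Spl L v₀) (hs₁ : ¬ Spl L v₁) (i₀ i₁ j : ℕ)
    (hi₀ : IsArt σ v₀ i₀) (hi₁ : IsArt σ v₁ i₁) (hj : (i₀ : ZMod ℓ) = j * i₁) :
    x v₀ = j * x v₁ := by
  classical
  have hℓ : ℓ.Prime := Fact.out
  have hr₀ : ¬ Ram L v₀ := fun h => hv₀ (hram v₀ h)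
  -- the first auxiliary prime
  obtain ⟨q₀, hq₀, hB₀, a₀, ha₀, hord₀⟩ := exists_q ℓ hℓ (nrm v₀) (nrm v₀) (link_two_le v₀)
  have hq₀v₀ : (q₀ : 𝓞 k) ∉ v₀.asIdeal := link_not_mem v₀ q₀ hq₀ hB₀
  obtain ⟨M, _, _, _, _, _, ζ₀, hgalM, hζ₀, -⟩ := exists_cyc k L q₀ hq₀
  obtain ⟨W₀, hW₀⟩ := exists_over (N := M) v₀
  obtain ⟨φ₀, hφ₀⟩ := exists_fr (k := k) W₀
  rw [hW₀] at hφ₀
  have hq₀W₀ : (q₀ : 𝓞 M) ∉ W₀.asIdeal := by
    rw [← link_nat (k := k), hW₀]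
    exact hq₀v₀
  have hφζ : φ₀ ζ₀ = ζ₀ ^ nrm v₀ := hφ₀.zeta hW₀ q₀ hq₀W₀ ζ₀ hζ₀.pow_eq_one
  have hφL : ∀ x : L, φ₀ (algebraMap L M x) = algebraMap L M ((σ ^ i₀) x) := by
    intro x
    have h1 := fr_pow_restrict hW₀ hr₀ hi₀ φ₀ 1 (fun x => by rw [pow_one]; exact hφ₀ _) x
    rwa [mul_one] at h1
  -- the second auxiliary prime
  obtain ⟨q₁, hq₁, hB₁, a₁, ha₁, hord₁⟩ :=
    exists_q ℓ hℓ (nrm v₁) (max (nrm v₁) (discr M).natAbs) (link_two_le v₁)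
  have hq₁v₁ : (q₁ : 𝓞 k) ∉ v₁.asIdeal := link_not_mem v₁ q₁ hq₁ ((le_max_left _ _).trans_lt hB₁)
  have hd : ¬ (q₁ : ℤ) ∣ discr M := by
    intro h1
    have h2 : q₁ ≤ (discr M).natAbs :=
      Nat.le_of_dvd (Int.natAbs_pos.mpr (discr_ne_zero M)) (Int.natCast_dvd.mp h1)
    have h3 := (le_max_right (nrm v₁) (discr M).natAbs).trans_lt hB₁
    omega
  obtain ⟨N, _, _, _, _, _, ζ₁, hgalN, hζ₁, -⟩ := exists_cyc k M q₁ hq₁
  letI : Algebra L N := ((algebraMap M N).comp (algebraMap L M)).toAlgebra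
  haveI : IsScalarTower L M N := IsScalarTower.of_algebraMap_eq fun x => rfl
  haveI : IsScalarTower k L N := IsScalarTower.of_algebraMap_eq fun x => by
    rw [IsScalarTower.algebraMap_apply L M N, ← IsScalarTower.algebraMap_apply k L M,
      ← IsScalarTower.algebraMap_apply k M N]
  have hc : (nrm v₁ ^ j).Coprime q₁ := by
    refine Nat.Coprime.pow_left j ?_
    rw [← ZMod.isUnit_iff_coprime, ← ha₁]
    exact a₁.isUnit
  obtain ⟨h, hM, hζh⟩ := exists_lift k M N q₁ hq₁ hd ζ₁ hζ₁ φ₀ (nrm v₁ ^ j) hc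
  have hNL : ∃ x : L, h (algebraMap L N x) ≠ algebraMap L N x := by
    by_contra hcon
    push Not at hcon
    have h1 : σ ^ i₀ = σ ^ 0 := by
      ext x
      have h2 := hcon x
      have h3 := link_powL (L := L) hM hφL 1 x
      rw [pow_one, pow_one] at h3
      rw [h3] at h2
      rw [pow_zero]
      exact (algebraMap L N).injective h2
    rw [pow_eq_pow_of ℓ hdeg hσ, Nat.cast_zero, art_spl ℓ hdeg hσ hr₀ hi₀] at h1
    exact hs₀ h1
  obtain ⟨E, E1, _, _, _, _, _, _, _, _, _, _, _, _, _, _, _, _, hgal1, hdeg1, hgalE, -, -, hpow,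
    ρ, hρ⟩ := exists_fixed k L N ℓ hdeg h hNL
  have hup : ∀ w : HeightOneSpectrum (𝓞 E), Spl L (w.under (𝓞 k)) → Spl E1 w := by
    obtain ⟨y, hy⟩ := hNL
    refine spl_up k L E E1 ℓ hdeg hdeg1 ρ ⟨y, fun h1 => hy ?_⟩
    rw [IsScalarTower.algebraMap_apply L E1 N, ← hρ, h1]
  have hT := dens_zero k L ℓ hdeg m hm0 hm1 x hx hne hspl
  have hn0 : m.map (algebraMap (𝓞 k) (𝓞 E)) * Ideal.span {(q₀ : 𝓞 E)} *
      Ideal.span {(q₁ : 𝓞 E)} ≠ 0 := by
    refine mul_ne_zero (mul_ne_zero ?_ ?_) ?_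
    · intro h0
      apply hm0
      exact (Ideal.map_eq_bot_iff_of_injective
        (FaithfulSMul.algebraMap_injective (𝓞 k) (𝓞 E))).1 h0
    · intro h0
      have h1 : (q₀ : 𝓞 E) = 0 := Ideal.span_singleton_eq_bot.1 h0
      exact hq₀.ne_zero (by exact_mod_cast h1)
    · intro h0
      have h1 : (q₁ : 𝓞 E) = 0 := Ideal.span_singleton_eq_bot.1 h0
      exact hq₁.ne_zero (by exact_mod_cast h1)
  obtain ⟨w, hw, hfx⟩ := norm_ne_zero k L ℓ E E1 hdeg1 m hm0 x hT hup _ hn0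
  have hmv : ¬ m ≤ (w.under (𝓞 k)).asIdeal := by
    intro h0
    refine hw (Ideal.mul_le_left.trans (Ideal.mul_le_left.trans ?_))
    rw [Ideal.map_le_iff_le_comap]
    exact h0
  have hq₀w : (q₀ : 𝓞 E) ∉ w.asIdeal := by
    intro h0
    refine hw (Ideal.mul_le_left.trans (Ideal.mul_le_right.trans ?_))
    rw [Ideal.span_singleton_le_iff_mem]
    exact h0
  have hq₁w : (q₁ : 𝓞 E) ∉ w.asIdeal := by
    intro h0
    refine hw (Ideal.mul_le_right.trans ?_)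
    rw [Ideal.span_singleton_le_iff_mem]
    exact h0
  obtain ⟨W, hW⟩ := exists_over (N := N) w
  obtain ⟨τ, hτ⟩ := exists_fr (k := E) W
  rw [hW] at hτ
  obtain ⟨i', hi'⟩ := hpow τ
  set v := w.under (𝓞 k) with hv
  set f := w.asIdeal.inertiaDeg (𝓞 k) with hf
  have hWv : W.under (𝓞 k) = v := by
    rw [hv, ← hW]
    apply HeightOneSpectrum.ext
    change W.asIdeal.under (𝓞 k) = (W.asIdeal.under (𝓞 E)).under (𝓞 k)
    rw [Ideal.under_under]
  have hrv : ¬ Ram L v := fun h0 => hmv (hram v h0)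
  have hnw : nrm w = nrm v ^ f := link_nrm w
  obtain ⟨iv, hiv⟩ := exists_art ℓ hdeg hσ v
  have hf0 : 0 < f := by
    rcases Nat.eq_zero_or_pos f with h0 | h0
    · exfalso
      apply hfx
      rw [h0, Nat.cast_zero, zero_mul]
    · exact h0
  -- the action on `L`
  have hfr : ∀ x : 𝓞 N, (h ^ i') • x - x ^ (nrm v ^ f) ∈ W.asIdeal := by
    intro y
    have h1 := hτ y
    have h2 : τ • y = (h ^ i') • y := by
      apply RingOfIntegers.ext
      exact hi' y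
    rw [h2, hnw] at h1
    exact h1
  have h3 : (f : ZMod ℓ) * iv = i' * i₀ := by
    have h4 : σ ^ (iv * f) = σ ^ (i₀ * i') := by
      ext y
      have h5 := fr_pow_restrict hWv hrv hiv (h ^ i') f (fun y => hfr _) y
      have h6 := link_powL (L := L) hM hφL i' y
      rw [h6, ← pow_mul] at h5
      exact ((algebraMap L N).injective h5).symm
    rw [pow_eq_pow_of ℓ hdeg hσ] at h4
    push_cast at h4
    rw [mul_comm, h4, mul_comm]
  -- the action on the roots of unity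
  have hq₀W : (q₀ : 𝓞 N) ∉ W.asIdeal := by
    rw [← link_nat (k := E), hW]
    exact hq₀w
  have hq₁W : (q₁ : 𝓞 N) ∉ W.asIdeal := by
    rw [← link_nat (k := E), hW]
    exact hq₁w
  have hz₀ : IsPrimitiveRoot (algebraMap M N ζ₀) q₀ :=
    hζ₀.map_of_injective (algebraMap M N).injective
  have e₀ : ((nrm w : ℕ) : ZMod q₀) = ((nrm v₀ : ℕ) : ZMod q₀) ^ i' := by
    refine link_norm_eq q₀ hq₀ _ hz₀ h _ _ i' ?_ ?_
    · rw [hM, hφζ, map_pow]
    · rw [← hi']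
      exact hτ.zeta hW q₀ hq₀W _ hz₀.pow_eq_one
  have e₁ : ((nrm w : ℕ) : ZMod q₁) = ((nrm v₁ ^ j : ℕ) : ZMod q₁) ^ i' := by
    refine link_norm_eq q₁ hq₁ _ hζ₁ h _ _ i' hζh ?_
    rw [← hi']
    exact hτ.zeta hW q₁ hq₁W _ hζ₁.pow_eq_one
  have r₀ : (f : ZMod ℓ) * x v = i' * x v₀ := by
    refine art_rel k L ℓ h2 hdeg hσ m hm0 hm1 hram x hx hne hspl v₀ hv₀ hs₀ i₀ hi₀ q₀ hq₀ hq₀v₀ a₀
      ha₀.symm hord₀ v hmv ?_ iv hiv f i' hf0 h3 ?_
    · rw [hv, link_nat]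
      exact hq₀w
    · rw [Units.val_pow_eq_pow_val, ha₀, ← e₀, hnw]
      push_cast
      rfl
  have r₁ : (f : ZMod ℓ) * x v = ((j * i' : ℕ) : ZMod ℓ) * x v₁ := by
    refine art_rel k L ℓ h2 hdeg hσ m hm0 hm1 hram x hx hne hspl v₁ hv₁ hs₁ i₁ hi₁ q₁ hq₁ hq₁v₁ a₁
      ha₁.symm hord₁ v hmv ?_ iv hiv f (j * i') hf0 ?_ ?_
    · rw [hv, link_nat]
      exact hq₁w
    · rw [h3, hj]
      push_cast
      ring
    · rw [Units.val_pow_eq_pow_val, ha₁, pow_mul, ← Nat.cast_pow, ← Nat.cast_pow, ← hnw, e₁]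
  have hi0 : (i' : ZMod ℓ) ≠ 0 := by
    intro h0
    apply hfx
    rw [r₀, h0, zero_mul]
  apply mul_left_cancel₀ hi0
  rw [← r₀, r₁]
  push_cast
  ring

end

end Pool.Agent.Lib.MP_1a91b9_ntT.CF
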