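import Pool.Agent.Lib.MP_1a91b9_ntT.CF.Main
import Pool.Agent.Lib.MP_1a91b9_ntT.CA.Link

/-! # CA: tame reciprocity with the Frobenius elements

PROOF (complete): x and v₁ with x v₁ ≠ 0 from `exists_x k L ℓ h2 hdeg ht` as in the proof of `reciprocity`
(CF/Main.lean; copy its private lemmas with new names); x vanishes at the ramified places and at the completely split ones.
v₁ is neither ramified nor completely split. i₁ with IsArt σ v₁ i₁ (`exists_art`), i₁ ≠ 0 in ZMod ℓ (`art_spl`). Put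
y v = x v * (i₁ / x v₁). Claim: y v = i if v is unramified and IsArt σ v i. If v splits completely both are 0 (`art_spl`).
Otherwise let j be a natural number with i = j * i₁ in ZMod ℓ, and as in the proof of `reciprocity` take a place
p different from v, v₁ and not ramified, m = p * product of the ramified places, x' = x with x'(p) = 0, RC m x'. `art_link` with
x', v₀ := v, v₁ gives x v = j * x v₁, so y v = j * i₁ = i.
y v = 0 iff Spl L v for v unramified: from the claim, `exists_art` and `art_spl`. The last property: evI of the multiple of x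
is the multiple of evI x (as for `Multiset.sum_map_mul_right`, atI of a multiple).
-/

set_option autoImplicit false

namespace Pool.Agent.Lib.MP_1a91b9_ntT.CF

open NumberField IsDedekindDomain UniqueFactorizationMonoid Pool.Agent.Lib.MP_1a91b9_nt S4

universe u

private theorem Rec_main_place (F : Type u) [Field F] [NumberField F] (q : ℕ) (hq : q.Prime) :
    ∃ v : HeightOneSpectrum (𝓞 F), (q : 𝓞 F) ∈ v.asIdeal := by
  have hp : (Ideal.span {(q : ℤ)}).IsPrime :=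
    (Ideal.span_singleton_prime (by exact_mod_cast hq.ne_zero)).mpr
      (Nat.prime_iff_prime_int.mp hq)
  obtain ⟨⟨P, hP, hPo⟩⟩ :=
    (inferInstance : Nonempty (Ideal.primesOver (Ideal.span {(q : ℤ)}) (𝓞 F)))
  have hmem : (q : 𝓞 F) ∈ P := by
    have h1 : (q : ℤ) ∈ Ideal.span {(q : ℤ)} := Ideal.mem_span_singleton_self _
    rw [hPo.over] at h1
    have h2 : algebraMap ℤ (𝓞 F) (q : ℤ) ∈ P := h1
    rwa [map_natCast] at h2
  have hne : P ≠ ⊥ := by
    intro h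
    rw [h, Ideal.mem_bot] at hmem
    exact hq.ne_zero (by exact_mod_cast hmem)
  exact ⟨⟨P, hP, hne⟩, hmem⟩

private theorem Rec_main_infinite (F : Type u) [Field F] [NumberField F] :
    Infinite (HeightOneSpectrum (𝓞 F)) := by
  choose f hf using fun q : Nat.Primes => Rec_main_place F q.1 q.2
  refine Infinite.of_injective f fun q1 q2 h => ?_
  by_contra hne
  have hne' : (q1 : ℕ) ≠ (q2 : ℕ) := fun h3 => hne (Subtype.ext h3)
  have hc : Nat.Coprime (q1 : ℕ) (q2 : ℕ) := (Nat.coprime_primes q1.2 q2.2).mpr hne'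
  obtain ⟨a, b, hab⟩ := (Nat.isCoprime_iff_coprime.mpr hc)
  have h1 := hf q1
  have h2 := hf q2
  rw [← h] at h2
  have h4 : ((a : 𝓞 F) * ((q1 : ℕ) : 𝓞 F) + (b : 𝓞 F) * ((q2 : ℕ) : 𝓞 F)) = 1 := by
    exact_mod_cast congrArg (Int.cast : ℤ → 𝓞 F) hab
  have h5 : (1 : 𝓞 F) ∈ (f q1).asIdeal := by
    rw [← h4]
    exact Ideal.add_mem _ (Ideal.mul_mem_left _ _ h1) (Ideal.mul_mem_left _ _ h2)
  exact (f q1).isPrime.ne_top ((Ideal.eq_top_iff_one _).mpr h5)

private theorem Rec_main_eq {F : Type u} [Field F] [NumberField F] {v w : HeightOneSpectrum (𝓞 F)}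
    (h : v.asIdeal ≤ w.asIdeal) : v = w :=
  HeightOneSpectrum.ext (v.isMaximal.eq_of_le w.isPrime.ne_top h)

private theorem Rec_link (k L : Type u) [Field k] [NumberField k] [Field L] [NumberField L]
    [Algebra k L] [IsGalois k L] (ℓ : ℕ) [Fact ℓ.Prime] (h2 : ℓ ≠ 2)
    (hdeg : Module.finrank k L = ℓ) {σ : Gal(L/k)} (hσ : σ ≠ 1)
    (x : HeightOneSpectrum (𝓞 k) → ZMod ℓ) (hr : ∀ v, Ram L v → x v = 0)
    (hs : ∀ v, Spl L v → x v = 0)
    (hp : ∀ z : 𝓞 k, z ≠ 0 → (∀ v : HeightOneSpectrum (𝓞 k), Ram L v → z - 1 ∈ v.asIdeal) →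
        evI x (Ideal.span {z}) = 0)
    (v1 : HeightOneSpectrum (𝓞 k)) (hv1 : x v1 ≠ 0) (v0 : HeightOneSpectrum (𝓞 k))
    (hv0 : ¬ Ram L v0) (hns : ¬ Spl L v0) (i₀ i₁ j : ℕ)
    (hi₀ : IsArt σ v0 i₀) (hi₁ : IsArt σ v1 i₁) (hj : (i₀ : ZMod ℓ) = j * i₁) :
    x v0 = j * x v1 := by
  classical
  have hfin : {v : HeightOneSpectrum (𝓞 k) | Ram L v}.Finite := ram_finite k L
  obtain ⟨R, hR⟩ : ∃ R : Finset (HeightOneSpectrum (𝓞 k)), R = hfin.toFinset := ⟨_, rfl⟩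
  have hRm : ∀ v, v ∈ R ↔ Ram L v := fun v => by
    rw [hR, Set.Finite.mem_toFinset]
    exact Iff.rfl
  have := Rec_main_infinite k
  obtain ⟨p, hp0⟩ := Infinite.exists_notMem_finset (insert v0 (insert v1 R))
  rw [Finset.mem_insert, Finset.mem_insert, not_or, not_or] at hp0
  obtain ⟨hpv0, hpv1, hpR⟩ := hp0
  obtain ⟨m0, hm0⟩ : ∃ m0 : Ideal (𝓞 k), m0 = ∏ v ∈ R, v.asIdeal := ⟨_, rfl⟩
  have hm0le : ∀ w : HeightOneSpectrum (𝓞 k), m0 ≤ w.asIdeal ↔ w ∈ R := fun w => by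
    rw [hm0, w.isPrime.prod_le]
    constructor
    · rintro ⟨v, hv, hvw⟩
      rwa [← Rec_main_eq hvw]
    · intro hw
      exact ⟨w, hw, le_rfl⟩
  obtain ⟨m, hm⟩ : ∃ m : Ideal (𝓞 k), m = p.asIdeal * m0 := ⟨_, rfl⟩
  have hmle : ∀ w : HeightOneSpectrum (𝓞 k), m ≤ w.asIdeal ↔ (w = p ∨ w ∈ R) := fun w => by
    rw [hm, w.isPrime.mul_le, hm0le]
    constructor
    · rintro (h | h)
      · exact Or.inl (Rec_main_eq h).symm
      · exact Or.inr h
    · rintro (h | h)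
      · rw [h]
        exact Or.inl le_rfl
      · exact Or.inr h
  have hm00 : m0 ≠ 0 := by
    rw [hm0]
    exact Finset.prod_ne_zero_iff.mpr fun v _ => v.ne_bot
  have hmne : m ≠ 0 := by
    rw [hm]
    exact mul_ne_zero p.ne_bot hm00
  have hmp : m ≤ p.asIdeal := (hmle p).mpr (Or.inl rfl)
  have hm1 : m ≠ 1 := by
    intro h
    rw [h, Ideal.one_eq_top, top_le_iff] at hmp
    exact p.isPrime.ne_top hmp
  have hmm0 : m ≤ m0 := by
    rw [hm]
    exact (Ideal.mul_le_inf (I := p.asIdeal) (J := m0)).trans inf_le_right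
  have hRC0 : RC m0 x := by
    refine ⟨fun v hv => hr v ((hRm v).mp ((hm0le v).mp hv)), fun z hz hz1 => ?_⟩
    refine hp z hz fun v hv => ?_
    exact (hm0le v).mpr ((hRm v).mpr hv) hz1
  obtain ⟨x', hx'⟩ : ∃ x' : HeightOneSpectrum (𝓞 k) → ZMod ℓ,
      x' = fun v => if v = p then 0 else x v := ⟨_, rfl⟩
  have hx'p : x' p = 0 := by
    rw [hx']
    exact if_pos rfl
  have hx'n : ∀ v, v ≠ p → x' v = x v := fun v hv => by
    rw [hx']
    exact if_neg hv
  have hRC : RC m x' := by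
    refine RC.le hRC0 hmm0 (fun v hv => ?_) (fun v hv => ?_)
    · refine hx'n v fun h => hv ?_
      exact (hmle v).mpr (Or.inl h)
    · rcases (hmle v).mp hv with h | h
      · rw [h, hx'p]
      · by_cases hvp : v = p
        · rw [hvp, hx'p]
        · rw [hx'n v hvp]
          exact hr v ((hRm v).mp h)
  have hfinal := art_link k L ℓ h2 hdeg hσ m hmne hm1
    (fun v hv => (hmle v).mpr (Or.inr ((hRm v).mpr hv))) x' hRC
    ⟨v1, by
      rw [hx'n v1 (fun h => hpv1 h.symm)]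
      exact hv1⟩
    (fun v hv => by
      by_cases hvp : v = p
      · rw [hvp, hx'p]
      · rw [hx'n v hvp]
        exact hs v hv) v0 v1
    (fun h => by
      rcases (hmle v0).mp h with h | h
      · exact hpv0 h.symm
      · exact hv0 ((hRm v0).mp h))
    (fun h => by
      rcases (hmle v1).mp h with h | h
      · exact hpv1 h.symm
      · exact hv1 (hr v1 ((hRm v1).mp h))) hns (fun h => hv1 (hs v1 h)) i₀ i₁ j hi₀ hi₁ hj
  rw [hx'n v0 (fun h => hpv0 h.symm), hx'n v1 (fun h => hpv1 h.symm)] at hfinal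
  exact hfinal

private theorem Rec_evI {F : Type u} [Field F] [NumberField F] {ℓ : ℕ}
    (x : HeightOneSpectrum (𝓞 F) → ZMod ℓ) (c : ZMod ℓ) (I : Ideal (𝓞 F)) :
    evI (fun v => x v * c) I = evI x I * c := by
  unfold evI
  rw [← Multiset.sum_map_mul_right]
  congr 1
  refine Multiset.map_congr rfl fun P _ => ?_
  unfold atI
  split_ifs
  · rfl
  · rw [zero_mul]

/-- **Reciprocity** with the Frobenius elements. -/
theorem reciprocity_art (k L : Type u) [Field k] [NumberField k] [Field L] [NumberField L]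
    [Algebra k L] [IsGalois k L] (ℓ : ℕ) [Fact ℓ.Prime] (h2 : ℓ ≠ 2)
    (hdeg : Module.finrank k L = ℓ)
    (ht : ∀ v : HeightOneSpectrum (𝓞 k), Ram L v → (ℓ : 𝓞 k) ∉ v.asIdeal) {σ : Gal(L/k)}
    (hσ : σ ≠ 1) :
    ∃ x : HeightOneSpectrum (𝓞 k) → ZMod ℓ, (∀ v, Ram L v → x v = 0) ∧
      (∀ v, ¬ Ram L v → (x v = 0 ↔ Spl L v)) ∧
      (∀ v (i : ℕ), ¬ Ram L v → IsArt σ v i → x v = i) ∧
      ∀ z : 𝓞 k, z ≠ 0 → (∀ v : HeightOneSpectrum (𝓞 k), Ram L v → z - 1 ∈ v.asIdeal) →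
        evI x (Ideal.span {z}) = 0 := by
  obtain ⟨x, ⟨v1, hv1⟩, hr, hs, hp⟩ := exists_x k L ℓ h2 hdeg ht
  have hr1 : ¬ Ram L v1 := fun h => hv1 (hr v1 h)
  have hs1 : ¬ Spl L v1 := fun h => hv1 (hs v1 h)
  obtain ⟨i₁, hi₁⟩ := exists_art ℓ hdeg hσ v1
  have hi0 : (i₁ : ZMod ℓ) ≠ 0 := fun h => hs1 ((art_spl ℓ hdeg hσ hr1 hi₁).1 h)
  have hclaim : ∀ v (i : ℕ), ¬ Ram L v → IsArt σ v i →
      x v * ((x v1)⁻¹ * i₁) = i := by
    intro v i hv hi
    by_cases hspl : Spl L v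
    · rw [hs v hspl, zero_mul, (art_spl ℓ hdeg hσ hv hi).2 hspl]
    · have hj : (i : ZMod ℓ) = (((i : ZMod ℓ) * (i₁ : ZMod ℓ)⁻¹).val : ℕ) * i₁ := by
        rw [ZMod.natCast_zmod_val, mul_assoc, inv_mul_cancel₀ hi0, mul_one]
      rw [Rec_link k L ℓ h2 hdeg hσ x hr hs hp v1 hv1 v hv hspl i i₁ _ hi hi₁ hj]
      calc ((((i : ZMod ℓ) * (i₁ : ZMod ℓ)⁻¹).val : ℕ) : ZMod ℓ) * x v1 * ((x v1)⁻¹ * i₁) =
          ((((i : ZMod ℓ) * (i₁ : ZMod ℓ)⁻¹).val : ℕ) : ZMod ℓ) * i₁ * (x v1 * (x v1)⁻¹) := by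
            ring
        _ = i := by rw [mul_inv_cancel₀ hv1, mul_one, ← hj]
  refine ⟨fun v => x v * ((x v1)⁻¹ * i₁), fun v hv => ?_, fun v hv => ?_, hclaim,
    fun z hz hz1 => ?_⟩
  · show x v * _ = 0
    rw [hr v hv, zero_mul]
  · obtain ⟨i, hi⟩ := exists_art ℓ hdeg hσ v
    show x v * ((x v1)⁻¹ * i₁) = 0 ↔ Spl L v
    rw [hclaim v i hv hi]
    exact art_spl ℓ hdeg hσ hv hi
  · rw [Rec_evI, hp z hz hz1, zero_mul]

end Pool.Agent.Lib.MP_1a91b9_ntT.CF
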